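import Mathlib
import Pool.Agent.H21.Ps1

namespace Pool.Agent.Results.MP_b60f31_al.Yes

open Matrix Pool.Agent.H21.Ps

/-- The four Penrose equations, which characterise the Moore-Penrose pseudoinverse `X` of a real
matrix `A`. -/
def IsPinv {m n : Type} [Fintype m] [Fintype n] (A : Matrix m n ℝ) (X : Matrix n m ℝ) : Prop :=
  A * X * A = A ∧ X * A * X = X ∧ (A * X)ᵀ = A * X ∧ (X * A)ᵀ = X * A

theorem result (n : ℕ) (S : Finset (W n)) (X : Matrix (Fin n) S ℝ)
    (hX : IsPinv (Matrix.of fun s : S => row s.1) X) (i : Fin n) :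
    |(X *ᵥ fun s : S => rhs s.1) i| ≤ 2 ^ (n - 1) := by
  obtain ⟨h1, h2, h3, h4⟩ := hX
  set A : Matrix S (Fin n) ℝ := Matrix.of fun s : S => row s.1 with hA
  set b : S → ℝ := fun s : S => rhs s.1 with hb
  refine main (fun s : S => s.1) _ (fun d => ?_) (fun d hd => ?_) i
  · change (A *ᵥ (X *ᵥ b) - b) ⬝ᵥ (A *ᵥ d) = 0
    rw [sub_dotProduct, mulVec_mulVec, ← h3, mulVec_transpose, ← dotProduct_mulVec,
      mulVec_mulVec, h1, sub_self]
  · have h5 : A *ᵥ d = 0 := funext hd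
    rw [← h2, ← mulVec_mulVec, ← h4, mulVec_transpose, ← dotProduct_mulVec, ← mulVec_mulVec, h5,
      mulVec_zero, dotProduct_zero]

end Pool.Agent.Results.MP_b60f31_al.Yes
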